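import Mathlib

/-!
# From a potential to a covering of the unit classes

If there are a potential `phi` and constants `D, N` with: every `c` not divisible by three has a
predecessor `c'` (`2 ^ a c = 3 c' + 1`, `1 ≤ a`) not divisible by three with
`D a + phi c' ≤ N + phi c`, then every unit class modulo `3 ^ l` meets `R j` whenever
`N l + B ≤ D (j + l)`, where `phi ≤ B`.
-/

set_option autoImplicit false

namespace Pool.Agent.Run7.h865.WC

open Finset

/-- The set `R_{j-1,j}` of all sums of `2 ^ (α i) * 3 ^ i`, `i < j`, `α` strictly decreasing with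
values in `[0, 2 j - 1]`. -/
def R (j : ℕ) : Set ℕ :=
  {n : ℕ | ∃ α : Fin j → ℕ, StrictAnti α ∧ (∀ i, α i ≤ 2 * j - 1) ∧
    n = ∑ i, 2 ^ (α i) * 3 ^ (i : ℕ)}

theorem path (phi : ℕ → ℕ) (D N : ℕ)
    (hstep : ∀ c : ℕ, c % 3 ≠ 0 → ∃ a c' : ℕ, 1 ≤ a ∧ 2 ^ a * c = 3 * c' + 1 ∧ c' % 3 ≠ 0 ∧
      D * a + phi c' ≤ N + phi c) :
    ∀ l c : ℕ, c % 3 ≠ 0 → ∃ (s : ℕ) (β : Fin l → ℕ) (y : ℕ), StrictAnti β ∧ (∀ i, β i < s) ∧
      2 ^ s * c = ∑ i, 2 ^ (β i) * 3 ^ (i : ℕ) + 3 ^ l * y ∧ D * s + phi y ≤ N * l + phi c := by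
  intro l
  induction l with
  | zero =>
    intro c _
    refine ⟨0, fun i => i.elim0, c, fun i => i.elim0, fun i => i.elim0, ?_, ?_⟩
    · simp
    · simp
  | succ l ih =>
    intro c hc
    obtain ⟨a, c', ha, h1, h2, h3⟩ := hstep c hc
    obtain ⟨s, β, y, h4, h5, h6, h7⟩ := ih c' h2
    refine ⟨s + a, Fin.cons s β, y, ?_, ?_, ?_, ?_⟩
    · intro i k hik
      refine Fin.cases (fun hik => ?_) (fun i hik => ?_) i hik
      · obtain ⟨k, rfl⟩ := Fin.exists_succ_eq.mpr (Fin.pos_iff_ne_zero.mp hik)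
        rw [Fin.cons_zero, Fin.cons_succ]
        exact h5 k
      · have hk : k ≠ 0 := by
          rintro rfl
          exact absurd hik (by simp)
        obtain ⟨k, rfl⟩ := Fin.exists_succ_eq.mpr hk
        rw [Fin.cons_succ, Fin.cons_succ]
        exact h4 (Fin.succ_lt_succ_iff.mp hik)
    · intro i
      refine Fin.cases ?_ (fun i => ?_) i
      · rw [Fin.cons_zero]
        omega
      · rw [Fin.cons_succ]
        have := h5 i
        omega
    · rw [Fin.sum_univ_succ, Fin.cons_zero]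
      simp only [Fin.cons_succ, Fin.val_zero, Fin.val_succ, pow_zero, mul_one]
      have e1 : ∑ i : Fin l, 2 ^ β i * 3 ^ ((i : ℕ) + 1) = 3 * ∑ i : Fin l, 2 ^ β i * 3 ^ (i : ℕ) := by
        rw [mul_sum]
        refine sum_congr rfl fun i _ => ?_
        ring
      rw [e1]
      have e2 : 2 ^ (s + a) * c = 3 * (2 ^ s * c') + 2 ^ s := by
        calc 2 ^ (s + a) * c = 2 ^ s * (2 ^ a * c) := by ring
          _ = 2 ^ s * (3 * c' + 1) := by rw [h1]
          _ = _ := by ring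
      rw [e2, h6]
      ring
    · have e1 : D * (s + a) = D * s + D * a := by ring
      have e2 : N * (l + 1) = N * l + N := by ring
      rw [e1, e2]
      omega

theorem cover (phi : ℕ → ℕ) (D N B : ℕ) (hD : 0 < D)
    (hstep : ∀ c : ℕ, c % 3 ≠ 0 → ∃ a c' : ℕ, 1 ≤ a ∧ 2 ^ a * c = 3 * c' + 1 ∧ c' % 3 ≠ 0 ∧
      D * a + phi c' ≤ N + phi c)
    (hB : ∀ c : ℕ, c % 3 ≠ 0 → phi c ≤ B) (j l : ℕ) (hlj : l ≤ j)
    (hjl : N * l + B ≤ D * (j + l)) (r : ℕ) (hr : r < 3 ^ l) (h3 : ¬ 3 ∣ r) :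
    ∃ n ∈ R j, n % 3 ^ l = r := by
  have hl : 1 ≤ l := by
    by_contra h
    have : l = 0 := by omega
    subst this
    rw [pow_zero] at hr
    exact h3 ⟨0, by omega⟩
  have h3l : 1 < 3 ^ l := Nat.one_lt_pow (by omega) (by norm_num)
  have hcop : Nat.Coprime (2 ^ (2 * j)) (3 ^ l) := Nat.Coprime.pow _ _ (by norm_num)
  obtain ⟨b, _, hb⟩ := Nat.exists_mul_mod_eq_one_of_coprime hcop h3l
  obtain ⟨c, hcdef⟩ : ∃ c, c = b * r := ⟨_, rfl⟩
  have hc1 : 2 ^ (2 * j) * c ≡ r [MOD 3 ^ l] := by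
    have e1 : 2 ^ (2 * j) * b ≡ 1 [MOD 3 ^ l] := by
      unfold Nat.ModEq
      rw [hb, Nat.mod_eq_of_lt h3l]
    have e2 := e1.mul_right r
    rw [one_mul, mul_assoc, ← hcdef] at e2
    exact e2
  have hdvd : 3 ∣ 3 ^ l := dvd_pow_self 3 (by omega)
  have hc : c % 3 ≠ 0 := by
    intro h
    have e1 : 2 ^ (2 * j) * c ≡ r [MOD 3] := hc1.of_dvd hdvd
    have e2 : 3 ∣ 2 ^ (2 * j) * c := (Nat.dvd_of_mod_eq_zero h).mul_left _
    exact h3 ((e1.dvd_iff (dvd_refl 3)).mp e2)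
  obtain ⟨s, β, y, hβ1, hβ2, hβ3, hβ4⟩ := path phi D N hstep l c hc
  have hs : s ≤ j + l := by
    have := hB c hc
    have h : D * s ≤ D * (j + l) := by omega
    exact Nat.le_of_mul_le_mul_left h hD
  -- the exponents
  let γ : ℕ → ℕ := fun i => if h : i < l then β ⟨i, h⟩ + (2 * j - s) else j - 1 - i
  have hγ1 : ∀ (i : ℕ) (h : i < l), γ i = β ⟨i, h⟩ + (2 * j - s) := fun i h => dif_pos h
  have hγ2 : ∀ (i : ℕ), ¬ i < l → γ i = j - 1 - i := fun i h => dif_neg h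
  have hanti : ∀ i k : ℕ, i < k → k < j → γ k < γ i := by
    intro i k hik hk
    by_cases h1 : k < l
    · rw [hγ1 k h1, hγ1 i (by omega)]
      have := hβ1 (Fin.mk_lt_mk.mpr hik : (⟨i, by omega⟩ : Fin l) < ⟨k, h1⟩)
      omega
    · rw [hγ2 k h1]
      by_cases h2 : i < l
      · rw [hγ1 i h2]
        omega
      · rw [hγ2 i h2]
        omega
  have hbd : ∀ i : ℕ, i < j → γ i ≤ 2 * j - 1 := by
    intro i hi
    by_cases h1 : i < l
    · rw [hγ1 i h1]
      have := hβ2 ⟨i, h1⟩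
      omega
    · rw [hγ2 i h1]
      omega
  refine ⟨∑ i : Fin j, 2 ^ (γ i) * 3 ^ (i : ℕ), ⟨fun i => γ i, ?_, ?_, rfl⟩, ?_⟩
  · intro i k hik
    exact hanti i k hik k.2
  · intro i
    exact hbd i i.2
  · have e1 : ∑ i : Fin j, 2 ^ (γ i) * 3 ^ (i : ℕ) = ∑ i ∈ range j, 2 ^ (γ i) * 3 ^ i :=
      Fin.sum_univ_eq_sum_range (fun i => 2 ^ (γ i) * 3 ^ i) j
    have e2 : ∑ i ∈ range l, 2 ^ (γ i) * 3 ^ i =
        2 ^ (2 * j - s) * ∑ i : Fin l, 2 ^ (β i) * 3 ^ (i : ℕ) := by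
      rw [← Fin.sum_univ_eq_sum_range (fun i => 2 ^ (γ i) * 3 ^ i) l, mul_sum]
      refine sum_congr rfl fun i _ => ?_
      rw [hγ1 i i.2, pow_add]
      ring
    have hd : 3 ^ l ∣ ∑ i ∈ Ico l j, 2 ^ (γ i) * 3 ^ i := by
      refine dvd_sum fun i hi => ?_
      exact (pow_dvd_pow 3 (mem_Ico.mp hi).1).mul_left _
    obtain ⟨q, hq⟩ := hd
    rw [e1, ← sum_range_add_sum_Ico _ hlj, hq, Nat.add_mul_mod_self_left, e2]
    have e3 : 2 ^ (2 * j) * c = 2 ^ (2 * j - s) * ∑ i : Fin l, 2 ^ (β i) * 3 ^ (i : ℕ) +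
        3 ^ l * (2 ^ (2 * j - s) * y) := by
      calc 2 ^ (2 * j) * c = 2 ^ (2 * j - s) * (2 ^ s * c) := by
            rw [← mul_assoc, ← pow_add]
            congr 2
            omega
        _ = _ := by rw [hβ3]; ring
    have e4 : (2 ^ (2 * j) * c) % 3 ^ l = r := by
      have := hc1
      unfold Nat.ModEq at this
      rw [this, Nat.mod_eq_of_lt hr]
    rw [e3, Nat.add_mul_mod_self_left] at e4
    exact e4

/-- `R j` has at most `4 ^ j` elements. -/
theorem ncard_R_le (j : ℕ) : (R j).ncard ≤ 4 ^ j := by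
  classical
  let A : Set (Fin j → ℕ) := {α | StrictAnti α ∧ ∀ i, α i ≤ 2 * j - 1}
  have hA : ∀ α ∈ A, univ.image α ∈ ((range (2 * j)).powerset : Finset (Finset ℕ)) := by
    rintro α ⟨_, h⟩
    rw [mem_powerset]
    intro x hx
    obtain ⟨i, _, rfl⟩ := mem_image.mp hx
    have := h i
    have := i.2
    rw [mem_range]
    omega
  have hinj : Set.InjOn (fun α : Fin j → ℕ => univ.image α) A := by
    rintro α ⟨h1, _⟩ β ⟨h2, _⟩ h
    have h3 : Set.range α = Set.range β := by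
      have := congrArg (fun s : Finset ℕ => (s : Set ℕ)) h
      simpa using this
    have h4 : StrictMono (fun i => α (Fin.rev i)) := fun a b hab => h1 (Fin.rev_lt_rev.mpr hab)
    have h5 : StrictMono (fun i => β (Fin.rev i)) := fun a b hab => h2 (Fin.rev_lt_rev.mpr hab)
    have h6 : Set.range (fun i => α (Fin.rev i)) = Set.range (fun i => β (Fin.rev i)) := by
      have e : ∀ δ : Fin j → ℕ, Set.range (fun i => δ (Fin.rev i)) = Set.range δ := by
        intro δ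
        exact (Fin.rev_surjective).range_comp δ
      rw [e, e, h3]
    have h7 := (h4.range_inj h5).mp h6
    funext i
    have := congrFun h7 (Fin.rev i)
    simpa using this
  have hfin : A.Finite := by
    refine Set.Finite.of_finite_image ?_ hinj
    refine ((range (2 * j)).powerset.finite_toSet).subset ?_
    rintro s ⟨α, hα, rfl⟩
    exact mem_coe.mpr (hA α hα)
  have h1 : R j = (fun α : Fin j → ℕ => ∑ i, 2 ^ (α i) * 3 ^ (i : ℕ)) '' A := by
    ext n
    constructor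
    · rintro ⟨α, h1, h2, h3⟩
      exact ⟨α, ⟨h1, h2⟩, h3.symm⟩
    · rintro ⟨α, ⟨h1, h2⟩, h3⟩
      exact ⟨α, h1, h2, h3.symm⟩
  rw [h1]
  refine (Set.ncard_image_le hfin).trans ?_
  have h2 := Set.ncard_le_ncard_of_injOn (s := A)
    (t := (((range (2 * j)).powerset : Finset (Finset ℕ)) : Set (Finset ℕ)))
    (fun α : Fin j → ℕ => univ.image α) (fun α hα => mem_coe.mpr (hA α hα)) hinj
    (Finset.finite_toSet _)
  rw [Set.ncard_coe_finset, card_powerset, card_range, pow_mul] at h2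
  norm_num at h2
  exact h2

end Pool.Agent.Run7.h865.WC
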